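import Pool.Agent.helper64.D2.SpecC

set_option autoImplicit false

open Filter Topology
open scoped commutatorElement

namespace Pool.Agent.helper64.D2

theorem BXA (hBOX : BOX_stmt) : BXA_stmt := by
  intro X p q a t w hX hsupp ha ht
  obtain ⟨-, -, h1, h2, -, -⟩ := hBOX X p q a (-t) t hX hsupp ha (by linarith)
  have hd0 : Differentiable ℝ X := hX.differentiable (by norm_num)
  have hd1 : ContDiff ℝ 1 (deriv X) := by
    have := (contDiff_succ_iff_deriv (n := 1) (f := X) (𝕜 := ℝ)).1 (by
      have : ((1 : WithTop ℕ∞) + 1) = 2 := by norm_num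
      rw [this]; exact hX)
    exact this.2.2
  have hd1' : Differentiable ℝ (deriv X) := hd1.differentiable (by norm_num)
  have hsl : ∀ f : ℝ → ℝ, Differentiable ℝ f → ∀ x : ℝ, ∃ c : ℝ, |c - x| ≤ t ∧
      deriv f c = (f (x + t) - f (x + -t)) / (t - -t) := by
    intro f hf x
    obtain ⟨c, hc, hc2⟩ := exists_deriv_eq_slope f (show x + -t < x + t by linarith)
      hf.continuous.continuousOn hf.differentiableOn
    refine ⟨c, ?_, ?_⟩
    · rw [abs_le]
      exact ⟨by linarith [hc.1], by linarith [hc.2]⟩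
    · rw [hc2]
      have : x + t - (x + -t) = t - -t := by ring
      rw [this]
  have ha0 : 0 ≤ a := le_trans (abs_nonneg _) (ha 0)
  refine ⟨fun x => ?_, fun hw x => ?_⟩
  · obtain ⟨c, hc1, hc2⟩ := hsl X hd0 x
    rw [h1 x, ← hc2]
    have h3 := Convex.norm_image_sub_le_of_norm_deriv_le (f := deriv X) (C := a) (s := Set.univ)
      (x := x) (y := c) (fun z _ => hd1' z) (fun z _ => by
        have := ha z
        rwa [Real.norm_eq_abs]) convex_univ trivial trivial
    rw [Real.norm_eq_abs, Real.norm_eq_abs] at h3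
    exact h3.trans (mul_le_mul_of_nonneg_left hc1 ha0)
  · obtain ⟨c, hc1, hc2⟩ := hsl (deriv X) hd1' x
    rw [h2 x, ← hc2]
    exact hw c x hc1

end Pool.Agent.helper64.D2
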